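import Mathlib
import Pool.Agent.Helper947.Geo.A5
import Pool.Agent.Y206.G.Asm
import Pool.Agent.Y206.G.Ci
import Pool.Agent.Y206.E.Line

set_option autoImplicit false
open scoped LinearAlgebra.Projectivization
open MvPolynomial

/-!
# The general projection of a point set of `ℙ^n`, `n ≥ 4`, is not an intersection of quadrics

Let `Z` be a finite set of points of `ℙ^n` that is not contained in a hyperplane.

* If `n ≥ 4` and `Z` is geproci, then the general projection of `Z` to a hyperplane is not even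
  set-theoretically an intersection of quadrics. If `Z` is of type `(a_1, …, a_{n-1})`, then all
  `a_i ≥ 2` and some `a_i ≥ 3`: the type `(2, …, 2)` does not occur (in `ℙ^3` it occurs, for four
  points).
* More generally, for `n ≥ 3` and `|Z| ≠ n + 1`, if the general projection of `Z` to a hyperplane is
  arithmetically Gorenstein, then it is not set-theoretically an intersection of quadrics.
-/

namespace Pool.Agent.Results.MP_efd9e3_ag.NotQuadrics

/-- The projection of `z` from `P` to the hyperplane `H = {x_n = 0}` of `ℙ^n`, in the coordinates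
`x_0, …, x_{n-1}` of `H`: these are the first `n` coordinates of `P_n • z - z_n • P`. -/
def proj {n : ℕ} (P z : Fin (n + 1) → ℂ) : Fin n → ℂ :=
  fun i => P (Fin.last n) * z i.castSucc - z (Fin.last n) * P i.castSucc

/-- `I` is the homogeneous ideal of the reduced set `Z_P`: it consists of the polynomials which
vanish on all vectors representing the points of `Z_P`. -/
def IsIdealOfProjection {n : ℕ} (Z : Finset (ℙ ℂ (Fin (n + 1) → ℂ))) (P : Fin (n + 1) → ℂ)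
    (I : Ideal (MvPolynomial (Fin n) ℂ)) : Prop :=
  ∀ f : MvPolynomial (Fin n) ℂ, f ∈ I ↔ ∀ z ∈ Z, ∀ t : ℂ, eval (t • proj P z.rep) f = 0

/-- `Z` is geproci: for a general point `P` (outside of `H` and of the zero set of some nonzero
polynomial `g`) the homogeneous ideal of the reduced set `Z_P` is generated by a regular sequence
of `n - 1` forms. -/
def IsGeproci {n : ℕ} (Z : Finset (ℙ ℂ (Fin (n + 1) → ℂ))) : Prop :=
  ∃ g : MvPolynomial (Fin (n + 1)) ℂ, g ≠ 0 ∧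
    ∀ P : Fin (n + 1) → ℂ, P (Fin.last n) ≠ 0 → eval P g ≠ 0 →
      ∃ F : Fin (n - 1) → MvPolynomial (Fin n) ℂ, (∀ i, ∃ a, (F i).IsHomogeneous a) ∧
        RingTheory.Sequence.IsRegular (MvPolynomial (Fin n) ℂ) (List.ofFn F) ∧
        IsIdealOfProjection Z P (Ideal.span (Set.range F))

/-- `Z` is geproci of type `a = (a_1, …, a_{n-1})`: the forms have the degrees `a_i`. -/
def IsGeprociOfType {n : ℕ} (Z : Finset (ℙ ℂ (Fin (n + 1) → ℂ))) (a : Fin (n - 1) → ℕ) : Prop :=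
  ∃ g : MvPolynomial (Fin (n + 1)) ℂ, g ≠ 0 ∧
    ∀ P : Fin (n + 1) → ℂ, P (Fin.last n) ≠ 0 → eval P g ≠ 0 →
      ∃ F : Fin (n - 1) → MvPolynomial (Fin n) ℂ, (∀ i, (F i).IsHomogeneous (a i)) ∧
        RingTheory.Sequence.IsRegular (MvPolynomial (Fin n) ℂ) (List.ofFn F) ∧
        IsIdealOfProjection Z P (Ideal.span (Set.range F))

/-- The projection `Z_P` is arithmetically Gorenstein with socle degree `σ`: for some linear form
`h` without zeros on `Z_P` (a nonzerodivisor modulo the ideal `I` of `Z_P`) the socle of the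
Artinian reduction `R/(I + (h))`, where `R = ℂ[x_0, …, x_{n-1}]`, is one-dimensional and spanned by
the class of a form `s` of degree `σ`. -/
def ProjectionIsGorenstein {n : ℕ} (Z : Finset (ℙ ℂ (Fin (n + 1) → ℂ))) (P : Fin (n + 1) → ℂ)
    (σ : ℕ) : Prop :=
  ∃ (I : Ideal (MvPolynomial (Fin n) ℂ)) (h s : MvPolynomial (Fin n) ℂ),
    IsIdealOfProjection Z P I ∧ h.IsHomogeneous 1 ∧ (∀ z ∈ Z, eval (proj P z.rep) h ≠ 0) ∧
    s.IsHomogeneous σ ∧ s ∉ I ⊔ Ideal.span {h} ∧ (∀ i, X i * s ∈ I ⊔ Ideal.span {h}) ∧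
    ∀ F : MvPolynomial (Fin n) ℂ, (∀ i, X i * F ∈ I ⊔ Ideal.span {h}) →
      ∃ c : ℂ, F - C c * s ∈ I ⊔ Ideal.span {h}

/-- The general projection of `Z` is arithmetically Gorenstein. -/
def GeneralProjectionGorenstein {n : ℕ} (Z : Finset (ℙ ℂ (Fin (n + 1) → ℂ))) : Prop :=
  ∃ g : MvPolynomial (Fin (n + 1)) ℂ, g ≠ 0 ∧
    ∀ P : Fin (n + 1) → ℂ, P (Fin.last n) ≠ 0 → eval P g ≠ 0 → ∃ σ, ProjectionIsGorenstein Z P σ

/-- The projection `Z_P` is set-theoretically cut out by polynomials of degree at most two: the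
common zeros of a set of such polynomials are exactly the vectors which represent the points of
`Z_P`, and the zero vector. -/
def CutOutByQuadrics {n : ℕ} (Z : Finset (ℙ ℂ (Fin (n + 1) → ℂ))) (P : Fin (n + 1) → ℂ) : Prop :=
  ∃ S : Set (MvPolynomial (Fin n) ℂ), (∀ f ∈ S, f.totalDegree ≤ 2) ∧
    ∀ v : Fin n → ℂ, (∀ f ∈ S, eval v f = 0) ↔ ∃ z ∈ Z, ∃ t : ℂ, v = t • proj P z.rep

/-- `Z` is contained in a hyperplane. -/
def InHyperplane {n : ℕ} (Z : Finset (ℙ ℂ (Fin (n + 1) → ℂ))) : Prop :=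
  ∃ c : Fin (n + 1) → ℂ, c ≠ 0 ∧ ∀ z ∈ Z, ∑ i, c i * z.rep i = 0

/-- Three distinct points of `Z` lie on a line. -/
def HasCollinearTriple {n : ℕ} (Z : Finset (ℙ ℂ (Fin (n + 1) → ℂ))) : Prop :=
  ∃ x ∈ Z, ∃ y ∈ Z, ∃ z ∈ Z, x ≠ y ∧ x ≠ z ∧ y ≠ z ∧
    ∃ L : Submodule ℂ (Fin (n + 1) → ℂ), Module.finrank ℂ L = 2 ∧
      x.rep ∈ L ∧ y.rep ∈ L ∧ z.rep ∈ L

theorem rep_pair {d : ℕ} (x y : ℙ ℂ (Fin d → ℂ)) (h : x ≠ y) :
    LinearIndependent ℂ ![x.rep, y.rep] := by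
  rw [LinearIndependent.pair_iff]
  intro s t hst
  by_contra hcon
  apply h
  rw [← x.mk_rep, ← y.mk_rep, Projectivization.mk_eq_mk_iff']
  by_cases hs : s = 0
  · subst hs
    rw [zero_smul, zero_add] at hst
    have ht := (smul_eq_zero.mp hst).resolve_right y.rep_nonzero
    exact absurd ⟨rfl, ht⟩ hcon
  · refine ⟨-(s⁻¹ * t), ?_⟩
    have h1 : s • x.rep = -(t • y.rep) := eq_neg_of_add_eq_zero_left hst
    have h2 : x.rep = s⁻¹ • (s • x.rep) := by rw [smul_smul, inv_mul_cancel₀ hs, one_smul]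
    rw [h2, h1, smul_neg, smul_smul, neg_smul]

theorem rep_triple {d : ℕ} (x y z : Fin d → ℂ) (hxy : LinearIndependent ℂ ![x, y])
    (h : ¬ LinearIndependent ℂ ![x, y, z]) : ∃ L : Submodule ℂ (Fin d → ℂ),
      Module.finrank ℂ L = 2 ∧ x ∈ L ∧ y ∈ L ∧ z ∈ L := by
  refine ⟨Submodule.span ℂ (Set.range ![x, y]), ?_, Submodule.subset_span ⟨0, rfl⟩,
    Submodule.subset_span ⟨1, rfl⟩, ?_⟩
  · rw [finrank_span_eq_card hxy, Fintype.card_fin]
  · by_contra hz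
    apply h
    have h1 : LinearIndependent ℂ (Fin.snoc ![x, y] z : Fin 3 → Fin d → ℂ) :=
      linearIndependent_finSnoc.mpr ⟨hxy, hz⟩
    convert h1 using 1
    funext i
    fin_cases i <;> rfl

theorem span_top {n : ℕ} (Z : Finset (ℙ ℂ (Fin (n + 1) → ℂ))) (hdeg : ¬ InHyperplane Z) :
    Submodule.span ℂ (Set.range (fun z : Z => (z : ℙ ℂ (Fin (n + 1) → ℂ)).rep)) = ⊤ := by
  by_contra hne
  obtain ⟨x, hx⟩ : ∃ x, x ∉ Submodule.span ℂ
      (Set.range (fun z : Z => (z : ℙ ℂ (Fin (n + 1) → ℂ)).rep)) := by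
    by_contra hcon
    push Not at hcon
    exact hne (Submodule.eq_top_iff'.mpr hcon)
  obtain ⟨θ, hθ1, hθ2⟩ := Helper947.Geo.card_rel_sep _ x hx
  apply hdeg
  refine ⟨θ, ?_, fun z hz => ?_⟩
  · rintro rfl
    simp at hθ2
  · have h1 := hθ1 _ (Submodule.subset_span ⟨⟨z, hz⟩, rfl⟩)
    rw [dotProduct_comm] at h1
    exact h1

/-- the Gorenstein data in the form used by the general theorem -/
theorem data_of {N : ℕ} (Z : Finset (ℙ ℂ (Fin (N + 2) → ℂ))) (P : Fin (N + 2) → ℂ) (σ : ℕ) :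
    ProjectionIsGorenstein (n := N + 1) Z P σ ↔ ∃ I h,
      Helper947.Geo.IsVan (fun k : Z => Helper947.Geo.projv P (k : ℙ ℂ (Fin (N + 2) → ℂ)).rep) I ∧
      h.IsHomogeneous 1 ∧
      (∀ k : Z, eval (Helper947.Geo.projv P (k : ℙ ℂ (Fin (N + 2) → ℂ)).rep) h ≠ 0) ∧
      Y206.G.Soc1 (I ⊔ Ideal.span {h}) σ := by
  constructor
  · rintro ⟨I, h, s, hI, hh, hne, hs1, hs2, hs3, hs4⟩
    refine ⟨I, h, ?_, hh, fun k => hne k.1 k.2, s, hs1, hs2, hs3, hs4⟩
    intro f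
    rw [hI f]
    exact ⟨fun h1 k t => h1 k.1 k.2 t, fun h1 z hz t => h1 ⟨z, hz⟩ t⟩
  · rintro ⟨I, h, hI, hh, hne, s, hs1, hs2, hs3, hs4⟩
    refine ⟨I, h, s, ?_, hh, fun z hz => hne ⟨z, hz⟩, hs1, hs2, hs3, hs4⟩
    intro f
    rw [hI f]
    exact ⟨fun h1 z hz t => h1 ⟨z, hz⟩ t, fun h1 k t => h1 k.1 k.2 t⟩

/-- a complete intersection of points is arithmetically Gorenstein -/
theorem gor_of_ci {N : ℕ} (hN : 2 ≤ N) (Z : Finset (ℙ ℂ (Fin (N + 2) → ℂ)))
    (hdeg : ¬ InHyperplane (n := N + 1) Z) :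
    ∃ φ : MvPolynomial (Fin (N + 2)) ℂ, φ ≠ 0 ∧ ∀ P : Fin (N + 2) → ℂ,
      P (Fin.last (N + 1)) ≠ 0 → eval P φ ≠ 0 →
      ∀ (F : Fin N → MvPolynomial (Fin (N + 1)) ℂ) (a : Fin N → ℕ),
        (∀ i, (F i).IsHomogeneous (a i)) →
        RingTheory.Sequence.IsRegular (MvPolynomial (Fin (N + 1)) ℂ) (List.ofFn F) →
        IsIdealOfProjection (n := N + 1) Z P (Ideal.span (Set.range F)) →
        (∀ i, 1 ≤ a i) ∧ ProjectionIsGorenstein (n := N + 1) Z P (∑ i, (a i - 1)) := by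
  classical
  have hsp := span_top (n := N + 1) Z hdeg
  obtain ⟨φ, hφ, hind⟩ := Helper947.Geo.projv_indep
    (fun z : Z => (z : ℙ ℂ (Fin (N + 2) → ℂ)).rep)
    (fun k l hkl => rep_pair k.1 l.1 fun h => hkl (Subtype.ext h))
    (fun k => k.1.rep_nonzero) (by omega : 3 ≤ N + 1) hsp
  have hK : Nonempty Z := by
    have h1 := Y206.G.card_pos_of_span _ hsp
    exact Fintype.card_pos_iff.mp (lt_of_lt_of_le (Nat.succ_pos _) h1)
  refine ⟨φ, hφ, ?_⟩
  intro P _ hP F a ha hreg hI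
  obtain ⟨-, -, hnz, -⟩ := hind P hP
  obtain ⟨h, hh, hne⟩ := Y206.G.exists_linear
    (fun k : Z => Helper947.Geo.projv P (k : ℙ ℂ (Fin (N + 2) → ℂ)).rep) hnz
  have hI' : Helper947.Geo.IsVan
      (fun k : Z => Helper947.Geo.projv P (k : ℙ ℂ (Fin (N + 2) → ℂ)).rep)
      (Ideal.span (Set.range F)) := by
    intro f
    rw [hI f]
    exact ⟨fun h1 k t => h1 k.1 k.2 t, fun h1 z hz t => h1 ⟨z, hz⟩ t⟩
  obtain ⟨h1, h2⟩ := Y206.G.soc1_of_ci F a ha (Helper947.Geo.isReg_of_isRegular F hreg) hI' hh hne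
  exact ⟨h1, (data_of Z P _).mpr ⟨_, h, hI', hh, hne, h2⟩⟩

theorem flat_part {N : ℕ} (hN : 2 ≤ N) (Z : Finset (ℙ ℂ (Fin (N + 2) → ℂ)))
    (hdeg : ¬ InHyperplane (n := N + 1) Z) (hZ : GeneralProjectionGorenstein (n := N + 1) Z) :
    Z.card = N + 2 ∨ HasCollinearTriple (n := N + 1) Z := by
  classical
  by_contra hcon
  push Not at hcon
  obtain ⟨hcard, htriple⟩ := hcon
  obtain ⟨g, hg, hP⟩ := hZ
  apply hcard
  have h1 := Y206.G.gor_flat hN (fun z : Z => (z : ℙ ℂ (Fin (N + 2) → ℂ)).rep)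
    (span_top (n := N + 1) Z hdeg)
    (fun k l hkl => rep_pair k.1 l.1 fun h => hkl (Subtype.ext h))
    (fun i j k hij hik hjk => by
      by_contra hnot
      apply htriple
      obtain ⟨L, hL, h1, h2, h3⟩ := rep_triple _ _ _
        (rep_pair i.1 j.1 fun h => hij (Subtype.ext h)) hnot
      exact ⟨i.1, i.2, j.1, j.2, k.1, k.2, fun h => hij (Subtype.ext h),
        fun h => hik (Subtype.ext h), fun h => hjk (Subtype.ext h), L, hL, h1, h2, h3⟩)
    (fun k => k.1.rep_nonzero) g hg (fun P hP1 hP2 => by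
      obtain ⟨σ, hσ⟩ := hP P hP1 hP2
      exact ⟨σ, (data_of Z P σ).mp hσ⟩)
  simpa using h1


theorem quad_part {N : ℕ} (hN : 2 ≤ N) (Z : Finset (ℙ ℂ (Fin (N + 2) → ℂ)))
    (hdeg : ¬ InHyperplane (n := N + 1) Z) (hcard : Z.card ≠ N + 2)
    (hZ : GeneralProjectionGorenstein (n := N + 1) Z) :
    ∃ g : MvPolynomial (Fin (N + 2)) ℂ, g ≠ 0 ∧
      ∀ P : Fin (N + 2) → ℂ, eval P g ≠ 0 →
        ¬ CutOutByQuadrics (n := N + 1) Z P := by
  classical
  obtain ⟨φ, hφ, hind⟩ := Helper947.Geo.projv_indep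
    (fun z : Z => (z : ℙ ℂ (Fin (N + 2) → ℂ)).rep)
    (fun k l hkl => rep_pair k.1 l.1 fun h => hkl (Subtype.ext h))
    (fun k => k.1.rep_nonzero) (by omega : 3 ≤ N + 1) (span_top (n := N + 1) Z hdeg)
  obtain ⟨x, hx, y, hy, z, hz, hxy, hxz, hyz, L, hL, h1, h2, h3⟩ :=
    (flat_part hN Z hdeg hZ).resolve_left hcard
  refine ⟨φ, hφ, ?_⟩
  rintro P hP ⟨S, hS, hI⟩
  obtain ⟨-, hpair, -, -⟩ := hind P hP
  refine Y206.E.no_quadrics
    (fun k : Z => Helper947.Geo.projv P (k : ℙ ℂ (Fin (N + 2) → ℂ)).rep) hpair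
    ⟨x, hx⟩ ⟨y, hy⟩ ⟨z, hz⟩ (fun h => hxy (congrArg Subtype.val h))
    (fun h => hxz (congrArg Subtype.val h)) (fun h => hyz (congrArg Subtype.val h)) ?_ S hS ?_
  · -- the projections of three collinear points are collinear
    have h4 : ¬ LinearIndependent ℂ ![x.rep, y.rep, z.rep] := by
      intro h5
      let v : Fin 3 → L := ![⟨x.rep, h1⟩, ⟨y.rep, h2⟩, ⟨z.rep, h3⟩]
      have h6 : LinearIndependent ℂ v := by
        apply LinearIndependent.of_comp L.subtype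
        convert h5 using 1
        funext i
        fin_cases i <;> rfl
      have h7 := h6.fintype_card_le_finrank
      rw [hL, Fintype.card_fin] at h7
      omega
    intro h5
    apply h4
    let T : (Fin (N + 2) → ℂ) →ₗ[ℂ] (Fin (N + 1) → ℂ) :=
      { toFun := fun u => Helper947.Geo.projv P u
        map_add' := by
          intro u v
          funext i
          simp only [Helper947.Geo.projv, Pi.add_apply]
          ring
        map_smul' := by
          intro c u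
          funext i
          simp only [Helper947.Geo.projv, Pi.smul_apply, smul_eq_mul, RingHom.id_apply]
          ring }
    apply LinearIndependent.of_comp T
    convert h5 using 1
    funext i
    fin_cases i <;> rfl
  · intro v
    rw [hI v]
    constructor
    · rintro ⟨z, hz, t, ht⟩
      exact ⟨⟨z, hz⟩, t, ht⟩
    · rintro ⟨z, t, ht⟩
      exact ⟨z.1, z.2, t, ht⟩

/-- **Main theorem.** -/
theorem result (n : ℕ) (hn : 3 ≤ n) (Z : Finset (ℙ ℂ (Fin (n + 1) → ℂ)))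
    (hdeg : ¬ InHyperplane Z) :
    (4 ≤ n → IsGeproci Z → ∃ g : MvPolynomial (Fin (n + 1)) ℂ, g ≠ 0 ∧
      ∀ P : Fin (n + 1) → ℂ, eval P g ≠ 0 → ¬ CutOutByQuadrics Z P) ∧
    (4 ≤ n → ∀ a : Fin (n - 1) → ℕ, IsGeprociOfType Z a → (∀ i, 2 ≤ a i) ∧ ∃ i, 3 ≤ a i) ∧
    (Z.card ≠ n + 1 → GeneralProjectionGorenstein Z →
      ∃ g : MvPolynomial (Fin (n + 1)) ℂ, g ≠ 0 ∧
        ∀ P : Fin (n + 1) → ℂ, eval P g ≠ 0 → ¬ CutOutByQuadrics Z P) := by
  classical
  obtain ⟨N, rfl⟩ : ∃ N, n = N + 1 := ⟨n - 1, by omega⟩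
  have hN : 2 ≤ N := by omega
  obtain ⟨φ, hφ, hφci⟩ := gor_of_ci hN Z hdeg
  have hsp := span_top (n := N + 1) Z hdeg
  have main : 4 ≤ N + 1 → IsGeproci (n := N + 1) Z →
      ∃ g : MvPolynomial (Fin (N + 2)) ℂ, g ≠ 0 ∧
        ∀ P : Fin (N + 2) → ℂ, eval P g ≠ 0 → ¬ CutOutByQuadrics (n := N + 1) Z P := by
    intro hn4 hZ
    obtain ⟨g, hg, hP⟩ := hZ
    have h1 : GeneralProjectionGorenstein (n := N + 1) Z := by
      refine ⟨g * φ, mul_ne_zero hg hφ, fun P hP1 hP2 => ?_⟩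
      rw [map_mul] at hP2
      obtain ⟨F, hF1, hF2, hF3⟩ := hP P hP1 (left_ne_zero_of_mul hP2)
      choose a ha using hF1
      exact ⟨_, (hφci P hP1 (right_ne_zero_of_mul hP2) F a ha hF2 hF3).2⟩
    have hcard : Z.card ≠ N + 2 := by
      intro hcard
      have hli : LinearIndependent ℂ (fun z : Z => (z : ℙ ℂ (Fin (N + 2) → ℂ)).rep) := by
        apply linearIndependent_of_top_le_span_of_card_eq_finrank
        · rw [hsp]
        · simpa using hcard
      obtain ⟨hN2, hK⟩ := Helper947.Geo.geo_general hN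
        (fun z : Z => (z : ℙ ℂ (Fin (N + 2) → ℂ)).rep)
        (fun s _ => hli.comp (fun k : s => (k : Z)) Subtype.val_injective) hsp g hg (by
          intro P hP1 hP2
          obtain ⟨F, hF1, hF2, hF3⟩ := hP P hP1 hP2
          refine ⟨F, hF1, Helper947.Geo.isReg_of_isRegular F hF2, ?_⟩
          intro f
          rw [hF3 f]
          exact ⟨fun h1 k t => h1 k.1 k.2 t, fun h1 z hz t => h1 ⟨z, hz⟩ t⟩)
      omega
    exact quad_part hN Z hdeg hcard h1
  refine ⟨main, ?_, quad_part hN Z hdeg⟩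
  intro hn4 a hZ
  obtain ⟨g, hg, hP⟩ := hZ
  obtain ⟨χ, hχ, hquad⟩ := main hn4 ⟨g, hg, fun P hP1 hP2 => by
    obtain ⟨F, hF1, hF2, hF3⟩ := hP P hP1 hP2
    exact ⟨F, fun i => ⟨a i, hF1 i⟩, hF2, hF3⟩⟩
  obtain ⟨ψ, hψ, hind⟩ := Helper947.Geo.projv_indep
    (fun z : Z => (z : ℙ ℂ (Fin (N + 2) → ℂ)).rep)
    (fun k l hkl => rep_pair k.1 l.1 fun h => hkl (Subtype.ext h))
    (fun k => k.1.rep_nonzero) (by omega : 3 ≤ N + 1) hsp
  obtain ⟨P, hP'⟩ := Helper947.Geo.g4_exists_ne (g * ψ * χ)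
    (mul_ne_zero (mul_ne_zero hg hψ) hχ)
  rw [map_mul, map_mul] at hP'
  have hPg := left_ne_zero_of_mul (left_ne_zero_of_mul hP')
  have hPψ := right_ne_zero_of_mul (left_ne_zero_of_mul hP')
  have hPχ := right_ne_zero_of_mul hP'
  obtain ⟨hlast, hpair, hnz, hspP⟩ := hind P hPψ
  obtain ⟨F, hF1, hF2, hF3⟩ := hP P hlast hPg
  have hI : Helper947.Geo.IsVan
      (fun k : Z => Helper947.Geo.projv P (k : ℙ ℂ (Fin (N + 2) → ℂ)).rep)
      (Ideal.span (Set.range F)) := by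
    intro f
    rw [hF3 f]
    exact ⟨fun h1 k t => h1 k.1 k.2 t, fun h1 z hz t => h1 ⟨z, hz⟩ t⟩
  refine ⟨?_, ?_⟩
  · exact (Helper947.Geo.ci_rel
      (fun k : Z => Helper947.Geo.projv P (k : ℙ ℂ (Fin (N + 2) → ℂ)).rep) hpair hnz hspP F a hF1
      (Helper947.Geo.isReg_of_isRegular F hF2) hI).1
  · by_contra hcon
    push Not at hcon
    refine hquad P hPχ ⟨Set.range F, ?_, ?_⟩
    · rintro f ⟨i, rfl⟩
      have h3 := hcon i
      have h4 : (F i).totalDegree ≤ a i := (hF1 i).totalDegree_le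
      omega
    · intro v
      rw [Y206.E.zero_locus _ _ hI v]
      constructor
      · rintro ⟨z, t, ht⟩
        exact ⟨z.1, z.2, t, ht⟩
      · rintro ⟨z, hz, t, ht⟩
        exact ⟨⟨z, hz⟩, t, ht⟩

end Pool.Agent.Results.MP_efd9e3_ag.NotQuadrics
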